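import Pool.Agent.Helper82_NIB.Stmts

/-!
# NIB, modules AQ1 and AQ3
-/

set_option autoImplicit false
set_option linter.unusedSectionVars false

open Finset Matrix

namespace Pool.Agent.NIB.H64

section lin

variable {W : Type} [Fintype W] [DecidableEq W]

lemma mulVec_dl (M : Matrix W W ℝ) (w z : W) : (M *ᵥ dl w) z = M z w := by
  unfold dl Matrix.mulVec dotProduct
  rw [Finset.sum_eq_single w]
  · simp
  · intro b _ h
    simp [h]
  · intro h
    exact absurd (Finset.mem_univ _) h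

lemma grn_symm {A : Matrix W W ℝ} (h : ∀ a b, A a b = A b a) (ta : ℕ) (a b : W) :
    grn A ta a b = grn A ta b a := by
  unfold grn
  rw [Matrix.smul_apply, Matrix.smul_apply, Matrix.sum_apply, Matrix.sum_apply]
  congr 1
  exact Finset.sum_congr rfl fun j _ => laz_pow_symm h j a b

lemma mu_eq {A : Matrix W W ℝ} (h : IsSub A) (gh : W → W → ℝ) (ta : ℕ) (w z : W) :
    mu A gh w z = ((gh w - grn A ta *ᵥ dl w) z - ∑ w', A w w' * (gh w' - grn A ta *ᵥ dl w') z) -
      (laz A ^ ta *ᵥ dl w) z := by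
  have h1 : ((1 - A) * grn A ta) w z = (1 - laz A ^ ta) w z := by rw [one_sub_mul_grn]
  rw [sub_mul, one_mul, Matrix.sub_apply, Matrix.sub_apply, Matrix.mul_apply] at h1
  have h2 : ∑ w', A w w' * (gh w' - grn A ta *ᵥ dl w') z =
      ∑ w', A w w' * gh w' z - ∑ w', A w w' * grn A ta w' z := by
    rw [← Finset.sum_sub_distrib]
    refine Finset.sum_congr rfl fun w' _ => ?_
    rw [Pi.sub_apply, mulVec_dl, grn_symm h.symm]
    ring
  have h3 : dl w z = (1 : Matrix W W ℝ) w z := by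
    unfold dl
    rw [Matrix.one_apply, Pi.single_apply]
    by_cases e : z = w
    · simp [e]
    · have e' : ¬ w = z := fun h => e h.symm
      simp [e, e']
  rw [h2, Pi.sub_apply, mulVec_dl, mulVec_dl, grn_symm h.symm ta z w,
    laz_pow_symm h.symm ta z w, mu, h3]
  linarith

lemma nsq_comb {A : Matrix W W ℝ} (h : IsSub A) (w : W) (a : W → ℝ) (b : W → W → ℝ) (K : ℝ)
    (hK : 0 ≤ K) (ha : nsq a ≤ K) (hb : ∀ w', nsq (b w') ≤ K) :
    nsq (fun z => a z - ∑ w', A w w' * b w' z) ≤ 4 * K := by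
  have h1 : ∀ z, (a z - ∑ w', A w w' * b w' z) ^ 2 ≤
      2 * a z ^ 2 + 2 * ∑ w', A w w' * b w' z ^ 2 := by
    intro z
    have hcs : (∑ w', A w w' * b w' z) ^ 2 ≤ ∑ w', A w w' * b w' z ^ 2 := by
      have h2 := Finset.sum_mul_sq_le_sq_mul_sq univ (fun w' => √(A w w'))
        (fun w' => √(A w w') * b w' z)
      have h3 : ∀ w', √(A w w') * (√(A w w') * b w' z) = A w w' * b w' z := by
        intro w'
        rw [← mul_assoc, Real.mul_self_sqrt (h.nonneg w w')]
      have h4 : ∀ w', √(A w w') ^ 2 = A w w' := fun w' => Real.sq_sqrt (h.nonneg w w')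
      have h5 : ∀ w', (√(A w w') * b w' z) ^ 2 = A w w' * b w' z ^ 2 := by
        intro w'
        rw [mul_pow, h4]
      simp only [h3, h4, h5] at h2
      refine h2.trans ?_
      exact mul_le_of_le_one_left
        (Finset.sum_nonneg fun w' _ => mul_nonneg (h.nonneg _ _) (sq_nonneg _)) (h.row w)
    nlinarith [sq_nonneg (a z + ∑ w', A w w' * b w' z)]
  unfold nsq at *
  calc ∑ z, (a z - ∑ w', A w w' * b w' z) ^ 2
      ≤ ∑ z, (2 * a z ^ 2 + 2 * ∑ w', A w w' * b w' z ^ 2) := Finset.sum_le_sum fun z _ => h1 z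
    _ = 2 * ∑ z, a z ^ 2 + 2 * ∑ w', A w w' * ∑ z, b w' z ^ 2 := by
        rw [Finset.sum_add_distrib, ← Finset.mul_sum, ← Finset.mul_sum, Finset.sum_comm]
        simp only [Finset.mul_sum]
    _ ≤ 2 * K + 2 * ∑ w', A w w' * K := by
        have : ∑ w', A w w' * ∑ z, b w' z ^ 2 ≤ ∑ w', A w w' * K :=
          Finset.sum_le_sum fun w' _ => mul_le_mul_of_nonneg_left (hb w') (h.nonneg _ _)
        linarith
    _ ≤ 4 * K := by
        rw [← Finset.sum_mul]
        nlinarith [h.row w]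

end lin

theorem aq1 (he : EngStmt) (hd : DtauStmt) : Aq1Stmt := by
  intro W _ _ A gh de eps ta Z hA hde hde0 heps hta hgh w
  obtain ⟨-, -, e3, e4, -, e6, -⟩ := he W A hA
  set f : W → ℝ := A *ᵥ (laz A ^ ta *ᵥ dl w) with hf
  set g : W → ℝ := fun z => (A *ᵥ (gh w - grn A ta *ᵥ dl w)) z -
    ∑ w', A w w' * (A *ᵥ (gh w' - grn A ta *ᵥ dl w')) z with hg
  have h1 : A *ᵥ mu A gh w = g + -f := by
    have h2 : mu A gh w = (gh w - grn A ta *ᵥ dl w) -
        (fun z => ∑ w', A w w' * (gh w' - grn A ta *ᵥ dl w') z) - laz A ^ ta *ᵥ dl w := by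
      funext z
      rw [mu_eq hA gh ta w z]
      rfl
    rw [h2, Matrix.mulVec_sub, Matrix.mulVec_sub, ← hf]
    funext z
    simp only [Pi.sub_apply, Pi.add_apply, Pi.neg_apply, hg]
    have h3 : (A *ᵥ fun z => ∑ w', A w w' * (gh w' z - (grn A ta *ᵥ dl w') z)) z =
        ∑ w', A w w' * (A *ᵥ (gh w' - grn A ta *ᵥ dl w')) z := by
      unfold Matrix.mulVec dotProduct
      simp only [Finset.mul_sum, Pi.sub_apply]
      rw [Finset.sum_comm]
      refine Finset.sum_congr rfl fun a _ => Finset.sum_congr rfl fun b _ => ?_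
      ring
    rw [h3]
    ring
  have h4 : nsq g ≤ 4 * (eps * de) :=
    nsq_comb hA w _ (fun w' => A *ᵥ (gh w' - grn A ta *ᵥ dl w')) (eps * de)
      (mul_nonneg heps hde0) (hgh.gh2 w) hgh.gh2
  have h5 := e4 g (-f)
  have h6 := e3 g
  have h7 := e6 f
  have h8 := hd W A de ta hA hde hta w
  rw [h1]
  rw [← hf] at h8
  have h9 : de * (2 / ta + 16 * eps) = 2 * (de / ta) + 16 * (eps * de) := by ring
  rw [h9]
  linarith

section plus

variable {V : Type} [Fintype V] [DecidableEq V]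

lemma Qf_plu_le {x : V → V → ℝ} (hr : ∀ w, rs x w ≤ 1)
    (f : V × Bool → ℝ) (hf : ∀ u v, f (u, true) * f (v, false) = 0) :
    Qf x (plu f) ≤ ∑ w, f w ^ 2 := by
  have h1 : Qf x (plu f) = ∑ u, rs x (u, true) * f (u, true) ^ 2 +
      ∑ v, rs x (v, false) * f (v, false) ^ 2 := by
    unfold Qf plu
    have h2 : ∀ u v, x u v * (f (u, true) + f (v, false)) ^ 2 =
        x u v * f (u, true) ^ 2 + x u v * f (v, false) ^ 2 := by
      intro u v
      have h3 := hf u v
      have h4 : (f (u, true) + f (v, false)) ^ 2 = f (u, true) ^ 2 + f (v, false) ^ 2 +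
        2 * (f (u, true) * f (v, false)) := by ring
      rw [h4, h3]
      ring
    simp only [h2, Finset.sum_add_distrib]
    congr 1
    · refine Finset.sum_congr rfl fun u _ => ?_
      rw [rs_out, Finset.sum_mul]
    · rw [Finset.sum_comm]
      refine Finset.sum_congr rfl fun v _ => ?_
      rw [rs_inn, Finset.sum_mul]
  rw [h1, sum_node]
  refine add_le_add (Finset.sum_le_sum fun u _ => ?_) (Finset.sum_le_sum fun v _ => ?_)
  · exact mul_le_of_le_one_left (sq_nonneg _) (hr _)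
  · exact mul_le_of_le_one_left (sq_nonneg _) (hr _)

lemma En_nonneg' {A : Matrix (V × Bool) (V × Bool) ℝ} (hA : ∀ a b, 0 ≤ A a b)
    (f : V × Bool → ℝ) : 0 ≤ En A f := by
  unfold En
  exact mul_nonneg (by norm_num) (Finset.sum_nonneg fun a _ => Finset.sum_nonneg fun b _ =>
    mul_nonneg (hA a b) (sq_nonneg _))

theorem aq3 : Aq3Stmt := by
  intro V _ _ x gh de hx0 hxle hr hde w
  have hA0 : ∀ a b, 0 ≤ mat x a b := mat_nonneg hx0
  have hAle : ∀ a b, mat x a b ≤ de := mat_le hde hxle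
  have hQ : ∀ w', 0 ≤ Qd (mat x) gh w w' := fun w' => En_nonneg' hA0 _
  refine ⟨?_, ?_, ?_⟩
  · refine (Qf_plu_le hr _ ?_).trans ?_
    · intro u v
      unfold cc
      rcases w with ⟨a, c⟩
      cases c <;> simp
    · unfold Gamh
      rw [Finset.mul_sum]
      refine Finset.sum_le_sum fun w' _ => ?_
      unfold cc
      rw [mul_pow, Real.sq_sqrt (hQ w'), sq, mul_assoc]
      exact mul_le_mul_of_nonneg_right (hAle _ _) (mul_nonneg (hA0 _ _) (hQ w'))
  · refine (Qf_plu_le hr _ ?_).trans ?_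
    · intro u v
      rw [mulVec_dl, mulVec_dl]
      rcases w with ⟨a, c⟩
      cases c <;> simp
    · calc ∑ w', (mat x *ᵥ dl w) w' ^ 2 ≤ ∑ w', de * mat x w w' := by
            refine Finset.sum_le_sum fun w' _ => ?_
            rw [mulVec_dl, mat_symm x w' w, sq]
            exact mul_le_mul_of_nonneg_right (hAle _ _) (hA0 _ _)
        _ = de * rs x w := by rw [← Finset.mul_sum]; rfl
        _ ≤ de := mul_le_of_le_one_right hde (hr w)
  · exact Finset.sum_nonneg fun w' _ => mul_nonneg (hA0 _ _) (hQ w')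

end plus

end Pool.Agent.NIB.H64
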