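import Pool.Agent.Helper82_NIB.Stmts

/-!
# NIB, module CROW: row sums after the bite
-/

set_option autoImplicit false

open Finset Matrix

namespace Pool.Agent.NIB.H64

variable {V : Type} [Fintype V] [DecidableEq V]

lemma rs_eq_one_of_ne {D : Cd V} (h : D.Ok) (w : V × Bool) (hw : rs D.sg w ≠ 0) :
    rs D.sg w = 1 := by
  have h01 : ∀ w', mat D.sg w w' = 0 ∨ mat D.sg w w' = 1 := by
    intro w'
    rcases w with ⟨u, a⟩
    rcases w' with ⟨v, b⟩
    cases a <;> cases b <;> simp [h.sg01]
  have hle := h.sgrow w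
  unfold rs at hw hle ⊢
  obtain ⟨w', -, hw'⟩ := Finset.exists_ne_zero_of_sum_ne_zero hw
  have h1 : mat D.sg w w' = 1 := (h01 w').resolve_left hw'
  have h2 : mat D.sg w w' ≤ ∑ w'', mat D.sg w w'' :=
    Finset.single_le_sum (f := fun w'' => mat D.sg w w'')
      (fun i _ => by rcases h01 i with h | h <;> simp [h]) (Finset.mem_univ w')
  linarith

theorem crow (hc : CidnStmt) : CrowStmt := by
  intro V _ _ D h
  obtain ⟨-, -, hee, -⟩ := hc V D h
  have hth0 := h.th0
  have hth1 := h.th1
  have h1th : 0 < 1 - D.th := by linarith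
  have hA0 : ∀ w w', 0 ≤ mat D.x w w' := mat_nonneg h.x0
  have hso1 : ∀ w, rs D.xo w ≤ 1 := fun w => (rs_mono h.xox w).trans (h.row w)
  have hsupp' : ∀ w w', mat D.x w w' ≠ 0 → D.H w' := fun w w' hw => by
    rw [mat_symm] at hw
    exact h.supp w' w hw
  have hso2 : ∀ w, D.H w → 1 - rs D.xo w ≤ 2 * D.r + D.de := by
    intro w hw
    have h1 := h.rowH w hw
    have h2 := h.xorow w
    linarith
  have e1 : ∀ w, ∑ w', mat D.x w w' * Gf D.th D.sg w' = rs D.x w + D.drf w - D.ee w := by
    intro w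
    have e2 : D.ee w = ∑ w', mat D.x w w' * ((rs D.sg w' - D.th * rs D.xo w') / (1 - D.th)) := by
      unfold Cd.ee Matrix.mulVec dotProduct Cd.Ro
      rw [Finset.sum_div]
      exact Finset.sum_congr rfl fun w' _ => by ring
    have e3 : D.drf w = ∑ w', mat D.x w w' * (D.th * (1 - rs D.xo w') / (1 - D.th)) := by
      unfold Cd.drf
      rw [Finset.mul_sum]
      exact Finset.sum_congr rfl fun w' _ => by ring
    rw [e2, e3]
    unfold rs at *
    rw [← Finset.sum_add_distrib, ← Finset.sum_sub_distrib]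
    refine Finset.sum_congr rfl fun w' _ => ?_
    unfold Gf rs
    field_simp
    ring
  have e2 : ∀ w, 0 ≤ D.drf w := by
    intro w
    unfold Cd.drf
    refine mul_nonneg (by positivity) (Finset.sum_nonneg fun w' _ => mul_nonneg (hA0 _ _) ?_)
    linarith [hso1 w']
  have hthq : 0 ≤ D.th / (1 - D.th) := by positivity
  have hrd : 0 ≤ 2 * D.r + D.de := by
    have := h.r0
    have := h.de0
    linarith
  have e3 : ∀ w, D.drf w ≤ D.th / (1 - D.th) * (2 * D.r + D.de) := by
    intro w
    unfold Cd.drf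
    refine mul_le_mul_of_nonneg_left ?_ hthq
    calc ∑ w', mat D.x w w' * (1 - rs D.xo w')
        ≤ ∑ w', mat D.x w w' * (2 * D.r + D.de) := by
          refine Finset.sum_le_sum fun w' _ => ?_
          by_cases hz : mat D.x w w' = 0
          · simp [hz]
          · exact mul_le_mul_of_nonneg_left (hso2 w' (hsupp' w w' hz)) (hA0 _ _)
      _ = rs D.x w * (2 * D.r + D.de) := by
          rw [← Finset.sum_mul]; rfl
      _ ≤ 1 * (2 * D.r + D.de) := mul_le_mul_of_nonneg_right (h.row w) hrd
      _ = 2 * D.r + D.de := one_mul _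
  have hB4 := h.B40
  have hb1 : 0 ≤ D.b1 := by
    unfold Cd.b1
    positivity
  have h1b : 0 < 1 + D.b1 := by linarith
  have e4 : ∀ w w', D.Hp w → mat D.x w w' * Gf D.th D.sg w' = (1 + D.b1) * D.Ab w w' := by
    intro w w' hw
    unfold Cd.Ab
    by_cases hw' : D.Hp w'
    · rw [if_pos ⟨hw, hw'⟩]
      unfold Gf
      rw [hw'.2]
      field_simp
      ring
    · rw [if_neg (fun h => hw' h.2), mul_zero]
      by_cases hz : mat D.x w w' = 0
      · rw [hz, zero_mul]
      · have hH := hsupp' w w' hz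
        have hR : rs D.sg w' ≠ 0 := fun h0 => hw' ⟨hH, h0⟩
        unfold Gf
        rw [rs_eq_one_of_ne h w' hR]
        simp
  have e5 : ∀ w, D.Hp w → (1 + D.b1) * ∑ w', D.Ab w w' = rs D.x w + D.drf w - D.ee w := by
    intro w hw
    rw [Finset.mul_sum, ← e1 w]
    exact Finset.sum_congr rfl fun w' _ => (e4 w w' hw).symm
  have hsub : IsSub D.Ab := by
    refine ⟨?_, ?_, ?_⟩
    · intro w w'
      unfold Cd.Ab
      split_ifs
      · exact div_nonneg (hA0 _ _) (by positivity)
      · exact le_refl _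
    · intro w w'
      unfold Cd.Ab
      rw [mat_symm D.x w w']
      by_cases hw : D.Hp w <;> by_cases hw' : D.Hp w' <;> simp [hw, hw']
    · intro w
      by_cases hw : D.Hp w
      · have h5 := e5 w hw
        have h6 := e3 w
        have h7 := h.row w
        have h8 := abs_le.mp (hee w)
        have h9 : (1 + D.b1) * ∑ w', D.Ab w w' ≤ (1 + D.b1) * 1 := by
          rw [h5]
          unfold Cd.b1
          linarith [h8.1]
        exact le_of_mul_le_mul_left h9 h1b
      · have : ∑ w', D.Ab w w' = 0 := by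
          refine Finset.sum_eq_zero fun w' _ => ?_
          unfold Cd.Ab
          rw [if_neg (fun h => hw h.1)]
        rw [this]
        exact zero_le_one
  refine ⟨e1, e2, e3, e4, hsub, hb1, ?_⟩
  intro w hw
  have h5 := e5 w hw
  have h6 := e2 w
  have h7 := h.rowH w hw.1
  have h8 := abs_le.mp (hee w)
  have h9 : 101 / 100 * D.B4 ≤ D.b1 := by
    unfold Cd.b1
    have : 0 ≤ D.th / (1 - D.th) * (2 * D.r + D.de) := by positivity
    linarith
  rw [mul_sub, h5]
  linarith [h8.2]

end Pool.Agent.NIB.H64
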