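import Pool.Agent.Helper82_NIB.Stmts

/-!
# NIB, module SMEAN: the selection probability
-/

set_option autoImplicit false
set_option linter.unusedSectionVars false

open Finset Matrix

namespace Pool.Agent.NIB.H64

section prod

variable {I α : Type} [Fintype I] [DecidableEq I] [Fintype α]

lemma Ex_prod (wt : I → α → ℝ) (f : I → α → ℝ) :
    Ex wt (fun ω => ∏ i, f i (ω i)) = ∏ i, ∑ s, wt i s * f i s := by
  unfold Ex pw
  rw [Finset.prod_univ_sum]
  rw [Fintype.piFinset_univ]
  exact Finset.sum_congr rfl fun ω _ => (Finset.prod_mul_distrib).symm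

end prod

variable {V C : Type} [Fintype V] [DecidableEq V] [Fintype C] [DecidableEq C]

lemma sum_val (g : Val C → ℝ) :
    ∑ s, g s = g none + ∑ c, (g (some (c, true)) + g (some (c, false))) := by
  rw [Fintype.sum_option, Fintype.sum_prod_type]
  congr 1
  refine Finset.sum_congr rfl fun c _ => ?_
  rw [Fintype.sum_bool]

open Classical in
/-- The single coordinate factors of the selection event. -/
noncomputable def fac (b : Bm V C) (c : C) (a : V × V) : Crd V C → Val C → ℝ
  | .inl a', s => if a' = a then (if s = some (c, true) then 1 else 0)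
      else if a' ∈ b.blk c a then (if colOf s c then 0 else 1) else 1
  | .inr p, s => if p = (c, b.st c a.1) then (if colOf s c then 0 else 1)
      else if p = (c, a.2) then (if colOf s c then 1 else 0) else 1

open Classical in
lemma fac_inl (b : Bm V C) (c : C) (a a' : V × V) (s : Val C) :
    fac b c a (.inl a') s = if a' = a then (if s = some (c, true) then 1 else 0)
      else if a' ∈ b.blk c a then (if colOf s c then 0 else 1) else 1 := rfl

open Classical in
lemma fac_inr (b : Bm V C) (c : C) (a : V × V) (p : C × V) (s : Val C) :
    fac b c a (.inr p) s = if p = (c, b.st c a.1) then (if colOf s c then 0 else 1)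
      else if p = (c, a.2) then (if colOf s c then 1 else 0) else 1 := rfl

lemma sg_eq (b : Bm V C) (c : C) (u v : V) (hx : b.x c u v ≠ 0) (hst : b.st c u ≠ v)
    (ω : Crd V C → Val C) :
    b.sg c ω u v = ∏ i, fac b c (u, v) i (ω i) := by
  classical
  have hne : ((c, b.st c u) : C × V) ≠ (c, v) := fun h => hst (Prod.mk.inj h).2
  have hblk : ∀ a' ∈ b.blk c (u, v), a' ≠ (u, v) := by
    intro a' ha' h
    rw [h] at ha'
    unfold Bm.blk at ha'
    rw [Finset.mem_filter] at ha'
    exact lt_irrefl _ ha'.2.1
  unfold Bm.sg
  by_cases hS : b.Sel c ω (u, v)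
  · rw [if_pos hS]
    obtain ⟨h1, -, h3, h4, h5⟩ := hS
    symm
    refine Finset.prod_eq_one fun i _ => ?_
    rcases i with a' | p
    · rw [fac_inl]
      by_cases h : a' = (u, v)
      · rw [if_pos h, h, if_pos h1]
      · rw [if_neg h]
        by_cases h' : a' ∈ b.blk c (u, v)
        · rw [if_pos h', if_neg (h3 a' h')]
        · rw [if_neg h']
    · rw [fac_inr]
      by_cases h : p = (c, b.st c u)
      · rw [if_pos h, h, if_neg h4]
      · rw [if_neg h]
        by_cases h' : p = (c, v)
        · rw [if_pos h', h', if_pos h5]
        · rw [if_neg h']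
  · rw [if_neg hS]
    symm
    rw [Finset.prod_eq_zero_iff]
    by_contra hno
    push Not at hno
    apply hS
    refine ⟨?_, hx, ?_, ?_, ?_⟩
    · by_contra h
      apply hno (.inl (u, v)) (Finset.mem_univ _)
      rw [fac_inl]
      rw [if_pos rfl, if_neg h]
    · intro a' ha' h
      apply hno (.inl a') (Finset.mem_univ _)
      rw [fac_inl]
      rw [if_neg (hblk a' ha'), if_pos ha', if_pos h]
    · intro h
      apply hno (.inr (c, b.st c u)) (Finset.mem_univ _)
      rw [fac_inr]
      rw [if_pos rfl, if_pos h]
    · by_contra h
      apply hno (.inr (c, v)) (Finset.mem_univ _)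
      rw [fac_inr]
      rw [if_neg (Ne.symm hne), if_pos rfl, if_neg h]

lemma colOf_some (c c' : C) (t : Bool) : colOf (some (c', t) : Val C) c ↔ c' = c := by
  constructor
  · rintro ⟨t', h⟩
    exact (Prod.mk.inj (Option.some.inj h)).1
  · rintro rfl
    exact ⟨t, rfl⟩

lemma colOf_none (c : C) : ¬ colOf (none : Val C) c := by
  rintro ⟨t, h⟩
  simp at h

theorem smean (hw : SwtStmt) : SmeanStmt := by
  intro V C _ _ _ _ b de Lam h kap hb c u v
  classical
  obtain ⟨hwt, hq0, -, -, hprod, -, -, -⟩ := hw V C b de Lam h kap hb
  by_cases hx : b.x c u v = 0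
  · have h1 : (fun ω : Crd V C → Val C => b.sg c ω u v) = fun _ => 0 := by
      funext ω
      unfold Bm.sg
      rw [if_neg (fun hS : b.Sel c ω (u, v) => hS.2.1 hx)]
    rw [h1, Ex_const hwt]
    unfold Bm.xo
    rw [hx]
    simp
  by_cases hst : b.st c u = v
  · have h1 : (fun ω : Crd V C → Val C => b.sg c ω u v) = fun _ => 0 := by
      funext ω
      unfold Bm.sg
      rw [if_neg]
      rintro ⟨-, -, -, h4, h5⟩
      apply h4
      simpa [hst] using h5
    rw [h1, Ex_const hwt]
    unfold Bm.xo
    rw [if_pos hst]
    simp
  · have hne : ((c, b.st c u) : C × V) ≠ (c, v) := fun h => hst (Prod.mk.inj h).2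
    have h1 : (fun ω : Crd V C → Val C => b.sg c ω u v) =
        fun ω => ∏ i, fac b c (u, v) i (ω i) := funext fun ω => sg_eq b c u v hx hst ω
    have hxo : b.xo c u v = b.x c u v := by
      unfold Bm.xo
      rw [if_neg hst]
    rw [h1, Ex_prod, hxo, Fintype.prod_sum_type]
    -- the label coordinates
    have hlab : ∏ p : C × V, ∑ s, b.wt (.inr p) s * fac b c (u, v) (.inr p) s = 1 / 4 := by
      have hone : ∀ p : C × V, p ≠ (c, b.st c u) → p ≠ (c, v) →
          ∑ s, b.wt (.inr p) s * fac b c (u, v) (.inr p) s = 1 := by
        intro p h1 h2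
        rw [← hwt.one (.inr p)]
        refine Finset.sum_congr rfl fun s _ => ?_
        rw [fac_inr, if_neg h1, if_neg h2, mul_one]
      have hA : ∑ s, b.wt (.inr (c, b.st c u)) s * fac b c (u, v) (.inr (c, b.st c u)) s
          = 1 / 2 := by
        rw [sum_val]
        have h0 : b.wt (.inr (c, b.st c u)) none *
            fac b c (u, v) (.inr (c, b.st c u)) none = 1 / 2 := by
          rw [fac_inr, if_pos rfl, if_neg (colOf_none c), mul_one]
          rfl
        rw [h0, Finset.sum_eq_zero, add_zero]
        intro c' _
        rw [fac_inr, fac_inr, if_pos rfl, if_pos rfl]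
        simp only [Bm.wt, colOf_some]
        by_cases h : c' = c <;> simp [h]
      have hB : ∑ s, b.wt (.inr (c, v)) s * fac b c (u, v) (.inr (c, v)) s = 1 / 2 := by
        rw [sum_val]
        have hne' : ((c, v) : C × V) ≠ (c, b.st c u) := Ne.symm hne
        have h0 : b.wt (.inr (c, v)) none * fac b c (u, v) (.inr (c, v)) none = 0 := by
          rw [fac_inr, if_neg hne', if_pos rfl, if_neg (colOf_none c), mul_zero]
        rw [h0, zero_add, Finset.sum_eq_single c]
        · rw [fac_inr, fac_inr, if_neg hne', if_pos rfl, if_neg hne', if_pos rfl]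
          simp [Bm.wt, colOf_some]
        · intro c' _ h
          simp [Bm.wt, h]
        · intro h
          exact absurd (Finset.mem_univ c) h
      rw [← Finset.prod_subset (Finset.subset_univ ({(c, b.st c u), (c, v)} : Finset (C × V)))]
      · rw [Finset.prod_pair hne, hA, hB]
        norm_num
      · intro p _ hp
        rw [Finset.mem_insert, Finset.mem_singleton, not_or] at hp
        exact hone p hp.1 hp.2
    have hmem : ((u, v) : V × V) ∉ b.blk c (u, v) := by
      unfold Bm.blk
      rw [Finset.mem_filter]
      exact fun h => lt_irrefl _ h.2.1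
    have harc : ∏ a' : V × V, ∑ s, b.wt (.inl a') s * fac b c (u, v) (.inl a') s =
        b.q c (u, v) * b.pac c (u, v) * ∏ a' ∈ b.blk c (u, v), (1 - b.q c a') := by
      rw [← Finset.prod_subset (Finset.subset_univ (insert (u, v) (b.blk c (u, v))))]
      · rw [Finset.prod_insert hmem]
        congr 1
        · rw [Finset.sum_eq_single (some (c, true))]
          · rw [fac_inl, if_pos rfl, if_pos rfl, mul_one]
            rfl
          · intro s _ hs
            rw [fac_inl, if_pos rfl, if_neg hs, mul_zero]
          · intro h
            exact absurd (Finset.mem_univ _) h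
        · refine Finset.prod_congr rfl fun a' ha' => ?_
          have hne2 : a' ≠ (u, v) := fun h => hmem (h ▸ ha')
          have h2 := hwt.one (.inl a')
          rw [sum_val] at h2 ⊢
          simp only [fac_inl, if_neg hne2, if_pos ha', colOf_some, colOf_none, if_false, mul_one]
          have h3 : ∑ c', (b.wt (.inl a') (some (c', true)) * (if c' = c then 0 else 1) +
              b.wt (.inl a') (some (c', false)) * (if c' = c then 0 else 1)) +
              (b.wt (.inl a') (some (c, true)) + b.wt (.inl a') (some (c, false))) =
              ∑ c', (b.wt (.inl a') (some (c', true)) + b.wt (.inl a') (some (c', false))) := by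
            rw [← Finset.sum_erase_add _ _ (Finset.mem_univ c),
              ← Finset.sum_erase_add (s := univ) (a := c)
                (f := fun c' => b.wt (.inl a') (some (c', true)) +
                  b.wt (.inl a') (some (c', false))) (Finset.mem_univ c)]
            simp only [if_true, mul_zero, add_zero]
            congr 1
            refine Finset.sum_congr rfl fun c' hc' => ?_
            rw [if_neg (Finset.ne_of_mem_erase hc')]
            ring
          have h4 : b.wt (.inl a') (some (c, true)) + b.wt (.inl a') (some (c, false)) =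
              b.q c a' := by
            simp only [Bm.wt]
            ring
          linarith
      · intro a' _ ha'
        rw [Finset.mem_insert, not_or] at ha'
        rw [← hwt.one (.inl a')]
        refine Finset.sum_congr rfl fun s _ => ?_
        rw [fac_inl, if_neg ha'.1, if_neg ha'.2, mul_one]
    rw [harc, hlab]
    have hP := hprod c (u, v)
    have hP' : (∏ a' ∈ b.blk c (u, v), (1 - b.q c a')) ≠ 0 := by linarith
    unfold Bm.pac
    have hq : b.q c (u, v) = 8 * b.th * b.x c u v := rfl
    rw [hq]
    field_simp
    ring

end Pool.Agent.NIB.H64
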